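import Pool.Agent.Run7.h982.CF.Iface

/-! # Pieces CNT and BASE of helper982's project CF (MP_c42e77_an, Q2) -/

set_option autoImplicit false

open Set Filter Topology

namespace Pool.Agent.Run7.h361.CF

open Pool.Agent.Run7.h982.CF

theorem CNT : S_CNT := by
  unfold S_CNT
  have h0 : ∀ J : ℕ, {c : ℕ → ℤ | ∀ j, J ≤ j → c (j + 1) = c j}.Countable := by
    intro J
    refine MapsTo.countable_of_injOn (f := fun (c : ℕ → ℤ) (i : Fin (J + 1)) => c i)
      (t := univ) (fun _ _ => mem_univ _) ?_ (Set.countable_univ)
    intro c hc c' hc' h
    have h1 : ∀ j, j ≤ J → c j = c' j := by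
      intro j hj
      exact congrFun h (⟨j, by omega⟩ : Fin (J + 1))
    funext j
    rcases le_total j J with hj | hj
    · exact h1 j hj
    · induction j, hj using Nat.le_induction with
      | base => exact h1 J le_rfl
      | succ n hn ih => rw [hc n hn, hc' n hn, ih]
  have h2 : ∀ J : ℕ, {c : ℕ → ℤ | ∀ j, J ≤ j → c (j + 1) = c j + 1}.Countable := by
    intro J
    refine MapsTo.countable_of_injOn (f := fun (c : ℕ → ℤ) (i : Fin (J + 1)) => c i)
      (t := univ) (fun _ _ => mem_univ _) ?_ (Set.countable_univ)
    intro c hc c' hc' h
    have h1 : ∀ j, j ≤ J → c j = c' j := by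
      intro j hj
      exact congrFun h (⟨j, by omega⟩ : Fin (J + 1))
    funext j
    rcases le_total j J with hj | hj
    · exact h1 j hj
    · induction j, hj using Nat.le_induction with
      | base => exact h1 J le_rfl
      | succ n hn ih => rw [hc n hn, hc' n hn, ih]
  refine (countable_iUnion fun J => (h0 J).union (h2 J)).mono ?_
  rintro c ⟨J, hJ⟩
  exact mem_iUnion.2 ⟨J, hJ⟩

/-- the path which is `true` exactly on `1, ..., n` -/
def en (n j : ℕ) : Bool := decide (1 ≤ j ∧ j ≤ n)

theorem ok_zero (u v : Bool) : ok 0 u v ↔ (u = false → v = false) := by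
  cases u <;> cases v <;> simp [ok, bi]

theorem ok_one (v : Bool) : ok 1 false v := by
  cases v <;> simp [ok, bi]

theorem mem_PP (e : ℕ → Bool) : e ∈ PP (fun j => if j = 0 then 0 else 1) ↔
    e 0 = false ∧ ∀ j, 1 ≤ j → e j = false → e (j + 1) = false := by
  constructor
  · rintro ⟨h0, h⟩
    refine ⟨h0, fun j hj => ?_⟩
    have h1 := h j
    have hj0 : j ≠ 0 := by omega
    simp only [Nat.add_eq_zero_iff, one_ne_zero, and_false, if_false, hj0, sub_self] at h1
    exact (ok_zero _ _).1 h1
  · rintro ⟨h0, h⟩
    refine ⟨h0, fun j => ?_⟩
    rcases Nat.eq_zero_or_pos j with rfl | hj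
    · simp only [zero_add, one_ne_zero, if_false, if_true, sub_zero, h0]
      exact ok_one _
    · have hj0 : j ≠ 0 := by omega
      simp only [Nat.add_eq_zero_iff, one_ne_zero, and_false, if_false, hj0, sub_self]
      exact (ok_zero _ _).2 (h j hj)

theorem en_mem (n : ℕ) : en n ∈ PP (fun j => if j = 0 then 0 else 1) := by
  rw [mem_PP]
  refine ⟨by simp [en], fun j hj h => ?_⟩
  simp only [en, decide_eq_false_iff_not, not_and, not_le] at h ⊢
  intro _
  have := h hj
  omega

theorem BASE : S_BASE := by
  constructor
  · refine infinite_of_injective_forall_mem (f := en) ?_ en_mem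
    intro n m h
    by_contra hne
    rcases lt_or_gt_of_ne hne with hlt | hlt
    · have h1 := congrFun h m
      have h2 : en m m = true := by simp only [en, decide_eq_true_eq]; omega
      have h3 : en n m = false := by
        simp only [en, decide_eq_false_iff_not, not_and, not_le]; omega
      rw [h2, h3] at h1
      exact Bool.noConfusion h1
    · have h1 := congrFun h n
      have h2 : en n n = true := by simp only [en, decide_eq_true_eq]; omega
      have h3 : en m n = false := by
        simp only [en, decide_eq_false_iff_not, not_and, not_le]; omega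
      rw [h2, h3] at h1
      exact Bool.noConfusion h1
  · refine ((countable_range en).union (countable_singleton fun j : ℕ => decide (1 ≤ j))).mono ?_
    intro e he
    rw [mem_PP] at he
    obtain ⟨h0, h⟩ := he
    by_cases hex : ∃ j, 1 ≤ j ∧ e j = false
    · left
      classical
      refine ⟨Nat.find hex - 1, ?_⟩
      obtain ⟨hm1, hm2⟩ := Nat.find_spec hex
      have hmin : ∀ j, j < Nat.find hex → ¬ (1 ≤ j ∧ e j = false) := fun j hj => Nat.find_min hex hj
      generalize Nat.find hex = m at hm1 hm2 hmin
      have hge : ∀ j, m ≤ j → e j = false := by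
        intro j hj
        induction j, hj using Nat.le_induction with
        | base => exact hm2
        | succ n hn ih => exact h n (by omega) ih
      funext j
      by_cases hj : 1 ≤ j ∧ j ≤ m - 1
      · have h1 : en (m - 1) j = true := by simp only [en, decide_eq_true_eq]; exact hj
        have h2 : e j ≠ false := fun h2 => hmin j (by omega) ⟨hj.1, h2⟩
        rw [h1]
        exact (Bool.eq_true_of_not_eq_false h2).symm
      · have h1 : en (m - 1) j = false := by
          simp only [en, decide_eq_false_iff_not]; exact hj
        rw [h1]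
        rcases Nat.eq_zero_or_pos j with rfl | hj0
        · exact h0.symm
        · exact (hge j (by omega)).symm
    · right
      rw [mem_singleton_iff]
      funext j
      rcases Nat.eq_zero_or_pos j with rfl | hj0
      · rw [h0]; simp
      · have h2 : e j ≠ false := fun h2 => hex ⟨j, hj0, h2⟩
        rw [Bool.eq_true_of_not_eq_false h2]
        simp only [true_eq_decide_iff]
        omega

end Pool.Agent.Run7.h361.CF
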